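import Pool.Agent.MP_dd3b7d_gt.Proof

namespace Pool.Agent.Results.MP_dd3b7d_gt.RealLine

open Pool.Agent.MP_dd3b7d_gt

theorem result : T0Space ℝ ∧ CoConsonant (Smyth ℝ) ∧ ¬ CoConsonant ℝ :=
  ⟨inferInstance, coConsonant_smyth,
    not_coConsonant (isCompact_Icc (a := (0 : ℝ)) (b := 1)) (Set.Icc_infinite zero_lt_one)⟩

end Pool.Agent.Results.MP_dd3b7d_gt.RealLine
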